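import Pool.Agent.H23.EhrDefs
import Pool.Agent.H23.EhrSum

namespace Pool.Agent.Results.MP_ffae75_co.Negative

open Pool.Agent.H23.Ehr Finset Polynomial Pointwise

def q : Fin 5 → ℕ := ![13, 182, 2548, 35672, 499408]

lemma mem_simplex (y : Fin 5 → ℝ) : y ∈ simplex 14 5 ↔
    ∑ i, y i ≤ 1 ∧ ∀ k, 0 ≤ 537824 * y k + q k * (1 - ∑ i, y i) := by
  have hq : (fun k : Fin 5 => -((((14 : ℕ) : ℝ) - 1) * ((14 : ℕ) : ℝ) ^ (k : ℕ))) =
      fun k => -(q k : ℝ) := by
    funext k; fin_cases k <;> simp [q] <;> norm_num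
  have sq : ∑ i, (q i : ℝ) = 537823 := by simp [q, Fin.sum_univ_five]; norm_num
  unfold simplex
  rw [hq]
  constructor
  · intro h
    refine convexHull_min (t := {y : Fin 5 → ℝ | ∑ i, y i ≤ 1 ∧
      ∀ k, 0 ≤ 537824 * y k + q k * (1 - ∑ i, y i)}) ?_ ?_ h
    · rintro _ (rfl | ⟨i, rfl⟩)
      · simp only [Set.mem_setOf_eq, sum_neg_distrib, sq]
        exact ⟨by norm_num, fun k => by linarith⟩
      · simp only [Set.mem_setOf_eq, sum_pi_single', mem_univ, if_true, sub_self, mul_zero, add_zero]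
        refine ⟨le_rfl, fun k => ?_⟩
        rw [Pi.single_apply]; split_ifs <;> norm_num
    · rintro u ⟨hu, hu'⟩ v ⟨hv, hv'⟩ a b ha hb hab
      simp only [Set.mem_setOf_eq, Pi.add_apply, Pi.smul_apply, smul_eq_mul, sum_add_distrib,
        ← mul_sum]
      obtain rfl : b = 1 - a := by linarith
      refine ⟨by nlinarith, fun k => ?_⟩
      have := mul_nonneg ha (hu' k)
      have := mul_nonneg hb (hv' k)
      nlinarith
  · rintro ⟨h, h'⟩
    have := (convex_convexHull ℝ (insert (fun k : Fin 5 => -(q k : ℝ))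
      (Set.range fun i : Fin 5 => Pi.single i (1 : ℝ)))).sum_mem (t := univ)
      (w := fun o : Option (Fin 5) => o.elim ((1 - ∑ i, y i) / 537824)
        fun k => y k + q k * ((1 - ∑ i, y i) / 537824))
      (z := fun o => o.elim (fun k => -(q k : ℝ)) fun i => Pi.single i (1 : ℝ))
      (by
        rintro (_ | k) _
        · simp only [Option.elim]; linarith
        · have := h' k; simp only [Option.elim]; linarith)
      (by
        rw [Fintype.sum_option]
        simp only [Option.elim, sum_add_distrib, ← sum_mul, sq]; ring)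
      (by
        rintro (_ | k) _
        · exact subset_convexHull _ _ (Or.inl rfl)
        · exact subset_convexHull _ _ (Or.inr ⟨k, rfl⟩))
    convert this using 1
    funext k
    rw [Fintype.sum_option]
    simp [Option.elim, Finset.sum_apply, Pi.single_apply]
    ring

lemma mem_dil (t : ℕ) (x : Fin 5 → ℤ) : (fun i => (x i : ℝ)) ∈ (t : ℝ) • simplex 14 5 ↔
    ∑ i, x i ≤ t ∧ ∀ k, 0 ≤ 537824 * x k + q k * (t - ∑ i, x i) := by
  rcases Nat.eq_zero_or_pos t with rfl | ht
  · rw [Nat.cast_zero, Set.zero_smul_set (s := simplex 14 5) ⟨_, subset_convexHull ℝ _ (Set.mem_insert _ _)⟩, Set.mem_zero]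
    constructor
    · intro h
      have : x = 0 := funext fun i => by simpa using congrFun h i
      subst this; simp
    · rintro ⟨h, h'⟩
      have h0 := h' 0; have h1 := h' 1; have h2 := h' 2; have h3 := h' 3; have h4 := h' 4
      simp only [q, Fin.sum_univ_five] at h h0 h1 h2 h3 h4
      simp at h0 h1 h2 h3 h4
      funext i
      have : x i = 0 := by fin_cases i <;> simp <;> omega
      simp [this]
  · have ht' : (0 : ℝ) < t := by exact_mod_cast ht
    rw [Set.mem_smul_set_iff_inv_smul_mem₀ ht'.ne', mem_simplex]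
    simp only [Pi.smul_apply, smul_eq_mul, ← mul_sum]
    have e : ∀ k, 537824 * ((t : ℝ)⁻¹ * x k) + q k * (1 - (t : ℝ)⁻¹ * ∑ i, (x i : ℝ)) =
        (t : ℝ)⁻¹ * ((537824 * x k + q k * (t - ∑ i, x i) : ℤ) : ℝ) := by
      intro k; push_cast; field_simp
    simp only [e, inv_mul_le_one₀ ht', mul_nonneg_iff_of_pos_left (inv_pos.2 ht')]
    norm_cast

def fl (k : Fin 5) (b : ℕ) : ℕ := q k * b / 537824

lemma fl_le (k : Fin 5) (b : ℕ) : 537824 * fl k b ≤ q k * b := Nat.mul_div_le _ _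

lemma fl_lt (k : Fin 5) (b : ℕ) : q k * b < 537824 * (fl k b + 1) :=
  Nat.lt_mul_div_succ _ (by norm_num)

lemma hw (b : ℕ) : w b + (fl 0 b + fl 1 b + fl 2 b + fl 3 b + fl 4 b) = b := by
  have h0 := fl_le 0 b; have h1 := fl_le 1 b; have h2 := fl_le 2 b; have h3 := fl_le 3 b
  have h4 := fl_le 4 b
  simp [q] at h0 h1 h2 h3 h4
  have : w b = b - (fl 0 b + fl 1 b + fl 2 b + fl 3 b + fl 4 b) := rfl
  omega

lemma w_le {b : ℕ} (h : b < 537824) : w b ≤ 5 := by
  have h0 := fl_lt 0 b; have h1 := fl_lt 1 b; have h2 := fl_lt 2 b; have h3 := fl_lt 3 b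
  have h4 := fl_lt 4 b
  simp [q] at h0 h1 h2 h3 h4
  have := hw b
  omega

def phi (p : Σ _ : ℕ, Fin 6 →₀ ℕ) (k : Fin 5) : ℤ := p.2 k.succ - q k * p.2 0 - fl k p.1

noncomputable def S (N t : ℕ) : Finset (Σ _ : ℕ, Fin 6 →₀ ℕ) :=
  ((range N).filter fun b => w b ≤ t).sigma fun b => finsuppAntidiag univ (t - w b)

lemma mem_S {N t : ℕ} {p : Σ _ : ℕ, Fin 6 →₀ ℕ} : p ∈ S N t ↔ p.1 < N ∧
    w p.1 + (p.2 0 + p.2 1 + p.2 2 + p.2 3 + p.2 4 + p.2 5) = t := by
  simp only [S, mem_sigma, mem_filter, mem_range, mem_finsuppAntidiag, subset_univ, and_true,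
    Fin.sum_univ_six]
  omega

lemma count (N t : ℕ) (hN : N = 537824) : latticeCount 14 5 t = (S N t).card := by
  have key : ∀ p : Σ _ : ℕ, Fin 6 →₀ ℕ,
      w p.1 + (p.2 0 + p.2 1 + p.2 2 + p.2 3 + p.2 4 + p.2 5) = t →
      (t : ℤ) - ∑ i, phi p i = p.1 + 537824 * p.2 0 := by
    intro p hp
    have := hw p.1
    simp [phi, q, Fin.sum_univ_five]
    omega
  have : {x : Fin 5 → ℤ | (fun i => (x i : ℝ)) ∈ (t : ℝ) • simplex 14 5} = phi '' (S N t) := by
    ext x
    simp only [Set.mem_setOf_eq, mem_dil, Set.mem_image, mem_coe, mem_S]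
    constructor
    · rintro ⟨h, h'⟩
      obtain ⟨B, hB⟩ := Int.eq_ofNat_of_zero_le (sub_nonneg.2 h)
      rw [hB] at h'
      obtain ⟨b, j, hb, rfl⟩ : ∃ b j, b < 537824 ∧ B = b + 537824 * j :=
        ⟨B % 537824, B / 537824, Nat.mod_lt _ (by norm_num), (Nat.mod_add_div _ _).symm⟩
      have nn : ∀ k, 0 ≤ x k + q k * j + fl k b := by
        intro k
        have h1 := h' k
        have h2 : ((q k * b : ℕ) : ℤ) < (537824 * (fl k b + 1) : ℕ) := by exact_mod_cast fl_lt k b
        push_cast at h1 h2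
        rw [mul_add, mul_left_comm] at h1
        omega
      choose y hy using fun k => Int.eq_ofNat_of_zero_le (nn k)
      refine ⟨⟨b, Finsupp.equivFunOnFinite.symm (Fin.cons j y)⟩, ?_, ?_⟩
      · have h0 := hy 0; have h1 := hy 1; have h2 := hy 2; have h3 := hy 3; have h4 := hy 4
        have := hw b
        simp [q] at h0 h1 h2 h3 h4
        rw [Fin.sum_univ_five] at hB
        refine ⟨hN ▸ hb, ?_⟩
        show w b + (j + y 0 + y 1 + y 2 + y 3 + y 4) = t
        omega
      · funext k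
        have := hy k
        simp only [phi, Finsupp.coe_equivFunOnFinite_symm, Fin.cons_succ, Fin.cons_zero]
        omega
    · rintro ⟨p, hp, rfl⟩
      have e := key p hp.2
      refine ⟨by omega, fun k => ?_⟩
      rw [e]
      have h2 : ((537824 * fl k p.1 : ℕ) : ℤ) ≤ (q k * p.1 : ℕ) := by exact_mod_cast fl_le k p.1
      push_cast at h2
      rw [mul_add, mul_left_comm, phi]
      omega
  rw [latticeCount, this, Set.InjOn.ncard_image, Set.ncard_coe_finset]
  rintro ⟨b, y⟩ hp ⟨b', y'⟩ hp' e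
  rw [mem_coe, mem_S] at hp hp'
  have e1 := key _ hp.2
  have e2 := key _ hp'.2
  have l1 := hp.1
  have l2 := hp'.1
  clear hp hp'
  rw [e] at e1
  simp only [] at e1 e2 l1 l2
  obtain rfl : b = b' := by omega
  have e0 : y 0 = y' 0 := by omega
  congr 1
  ext i
  refine Fin.cases e0 (fun k => ?_) i
  have := congrFun e k
  simp only [phi, e0] at this
  omega

noncomputable def Q (i : ℕ) : ℚ[X] := C (1 / 120) * ((X + C (5 - (i : ℚ))) * (X + C (4 - (i : ℚ))) *
  (X + C (3 - (i : ℚ))) * (X + C (2 - (i : ℚ))) * (X + C (1 - (i : ℚ))))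

lemma Q_eval (i t : ℕ) (h : i ≤ 5) : (Q i).eval (t : ℚ) = ((t + 5 - i).choose 5 : ℕ) := by
  rw [Nat.cast_choose_eq_descPochhammer_div, Nat.cast_sub (by omega)]
  simp [Q, descPochhammer_succ_eval, Nat.factorial]
  ring

lemma Q_coeff (i : ℕ) (h : i ≤ 5) : (Q i).coeff 1 = ((cc i : ℚ) - 6) / 120 := by
  have : (Q i).coeff 1 = (derivative (Q i)).eval 0 := by
    rw [← coeff_zero_eq_eval_zero, coeff_derivative]; simp
  rw [this]
  simp only [Q, derivative_mul, derivative_add, derivative_X, derivative_C, eval_mul, eval_add,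
    eval_C, eval_X, eval_zero, eval_one]
  interval_cases i <;> norm_num [cc]

theorem result : ∃ r d : ℕ, 2 ≤ r ∧ 1 ≤ d ∧ ∃ P : ℚ[X],
    (∀ t : ℕ, P.eval (t : ℚ) = latticeCount r d t) ∧ ∃ k ≤ d, P.coeff k < 0 := by
  refine ⟨14, 5, by norm_num, by norm_num, ∑ b ∈ range 537824, Q (w b), fun t => ?_, 1,
    by norm_num, ?_⟩
  · rw [count _ t rfl, S, card_sigma, eval_finset_sum, sum_filter, Nat.cast_sum]
    refine sum_congr rfl fun b hb => ?_
    have := w_le (mem_range.1 hb)
    rw [Q_eval _ _ this]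
    congr 1
    split_ifs with h
    · rw [card_finsuppAntidiag_nat_eq_choose, card_univ, Fintype.card_fin]
      obtain ⟨s, rfl⟩ := Nat.exists_eq_add_of_le h
      rw [show w b + s + 5 - w b = 5 + s by omega, show w b + s - w b = s by omega,
        show 6 + s - 1 = 5 + s by omega, Nat.choose_symm_add]
    · exact Nat.choose_eq_zero_of_lt (by omega)
  · rw [finset_sum_coeff, sum_congr rfl fun b hb => Q_coeff _ (w_le (mem_range.1 hb)),
      ← sum_div, sum_sub_distrib, ← Nat.cast_sum, total, sum_const, card_range]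
    norm_num

end Pool.Agent.Results.MP_ffae75_co.Negative
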